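import Pool.Agent.W464.WLP.Defs2

/-!
# Quadratic forms separate the points `e b i` (WLP-TM)
-/

set_option autoImplicit false

open MvPolynomial
open Pool.Agent.W464.WLP

namespace Pool.Agent.W571.WLP

section

variable {K : Type} [Field K] {v k : ℕ} {I : Type} [Fintype I] [DecidableEq I]

lemma e_false (C : Conf K v k I) (i l : I) : C.e false i l = if l = i then 1 else 0 :=
  C.dual false l i

/-- the form `f b i` in the basis `f false` -/
lemma f_eq (C : Conf K v k I) (b : Bool) (i : I) :
    C.f b i = ∑ m, MvPolynomial.C (C.e b i m) * C.f false m := by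
  rw [← sub_eq_zero]
  refine C.uni false _ ?_ fun l => ?_
  · refine (C.hom b i).sub (IsHomogeneous.sum _ _ _ fun m _ => ?_)
    have h := (isHomogeneous_C (Fin v) (C.e b i m)).mul (C.hom false m)
    rwa [zero_add] at h
  · rw [map_sub, map_sum]
    have : ∀ m, eval (C.w false l) (MvPolynomial.C (C.e b i m) * C.f false m) =
        if l = m then C.e b i m else 0 := by
      intro m
      rw [map_mul, eval_C, C.dual false l m, mul_ite, mul_one, mul_zero]
    simp only [this]
    rw [Finset.sum_ite_eq Finset.univ l, if_pos (Finset.mem_univ l)]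
    exact sub_self _

lemma eval_f (C : Conf K v k I) (b : Bool) (i : I) (x : Fin v → K) :
    ∑ m, C.e b i m * eval x (C.f false m) = eval x (C.f b i) := by
  conv_rhs => rw [f_eq C b i]
  rw [map_sum]
  exact Finset.sum_congr rfl fun m _ => by rw [map_mul, eval_C]

end

theorem tm : TM := by
  intro K _ v k I _ _ C b₀ i₀
  -- the evaluation map on quadratic forms
  let E : MvPolynomial I K →ₗ[K] (Bool × I → K) :=
    LinearMap.pi fun z => (MvPolynomial.aeval (C.e z.1 z.2)).toLinearMap
  have hE : ∀ g z, E g z = eval (C.e z.1 z.2) g := fun g z => by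
    simp [E, MvPolynomial.aeval_eq_eval]
  let W : Submodule K (Bool × I → K) := (homogeneousSubmodule I K 2).map E
  have hW : W = ⊤ := by
    by_contra hne
    obtain ⟨F, hF0, hF⟩ := Submodule.exists_le_ker_of_lt_top W (lt_top_iff_ne_top.2 hne)
    let β : Bool × I → K := fun z => F (Pi.single z 1)
    have hFx : ∀ x : Bool × I → K, F x = ∑ z, x z * β z := by
      intro x
      rw [LinearMap.pi_apply_eq_sum_univ F x]
      refine Finset.sum_congr rfl fun z _ => ?_
      rw [smul_eq_mul]
      congr 2
      funext j
      simp only [Pi.single_apply]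
      by_cases h : z = j
      · subst h; simp
      · rw [if_neg h, if_neg (Ne.symm h)]
    -- the relation for the monomials
    have hrel : ∀ l m : I, ∑ b, ∑ i, C.e b i l * C.e b i m * β (b, i) = 0 := by
      intro l m
      have hmem : E (X l * X m) ∈ W := ⟨X l * X m, by
        rw [SetLike.mem_coe, mem_homogeneousSubmodule]
        exact (isHomogeneous_X K l).mul (isHomogeneous_X K m), rfl⟩
      have h0 : F (E (X l * X m)) = 0 := LinearMap.mem_ker.1 (hF hmem)
      rw [hFx, Fintype.sum_prod_type] at h0
      rw [← h0]
      refine Finset.sum_congr rfl fun b _ => Finset.sum_congr rfl fun i _ => ?_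
      rw [hE]
      simp
    have hrel2 : ∀ l n : I, β (true, n) * eval (C.w false l) (C.f true n) +
        β (false, l) * eval (C.w true n) (C.f false l) = 0 := by
      intro l n
      have h1 : ∑ m, eval (C.w true n) (C.f false m) *
          (∑ b, ∑ i, C.e b i l * C.e b i m * β (b, i)) = 0 :=
        Finset.sum_eq_zero fun m _ => by rw [hrel, mul_zero]
      have h2 : ∑ m, eval (C.w true n) (C.f false m) *
          (∑ b, ∑ i, C.e b i l * C.e b i m * β (b, i)) =
          ∑ b, ∑ i, C.e b i l * β (b, i) * eval (C.w true n) (C.f b i) := by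
        simp only [Finset.mul_sum]
        rw [Finset.sum_comm]
        refine Finset.sum_congr rfl fun b _ => ?_
        rw [Finset.sum_comm]
        refine Finset.sum_congr rfl fun i _ => ?_
        rw [← eval_f C b i, Finset.mul_sum]
        refine Finset.sum_congr rfl fun m _ => ?_
        ring
      rw [h2, Fintype.sum_bool] at h1
      have h3 : ∑ i, C.e true i l * β (true, i) * eval (C.w true n) (C.f true i) =
          β (true, n) * eval (C.w false l) (C.f true n) := by
        rw [Finset.sum_eq_single n]
        · rw [C.dual true n n, if_pos rfl, mul_one, mul_comm]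
          rfl
        · intro i _ hi
          rw [C.dual true n i, if_neg (Ne.symm hi), mul_zero]
        · intro h; exact absurd (Finset.mem_univ n) h
      have h4 : ∑ i, C.e false i l * β (false, i) * eval (C.w true n) (C.f false i) =
          β (false, l) * eval (C.w true n) (C.f false l) := by
        rw [Finset.sum_eq_single l]
        · rw [e_false, if_pos rfl, one_mul]
        · intro i _ hi
          rw [e_false, if_neg (Ne.symm hi), zero_mul, zero_mul]
        · intro h; exact absurd (Finset.mem_univ l) h
      rw [h3, h4] at h1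
      exact h1
    obtain ⟨z1, z2⟩ := C.sq (fun j => β (false, j)) (fun i => -β (true, i)) fun i j => by
      have := hrel2 j i
      linear_combination this
    apply hF0
    refine LinearMap.ext fun x => ?_
    rw [hFx]
    refine Finset.sum_eq_zero fun z _ => ?_
    obtain ⟨b, i⟩ := z
    cases b
    · rw [z1 i, mul_zero]
    · rw [neg_eq_zero.1 (z2 i), mul_zero]
  have hmem : (Pi.single (b₀, i₀) 1 : Bool × I → K) ∈ W := by rw [hW]; trivial
  obtain ⟨g, hg, hgE⟩ := hmem
  refine ⟨g, hg, fun b i => ?_⟩
  rw [← hE g (b, i), hgE, Pi.single_apply]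
  simp only [Prod.mk.injEq]

end Pool.Agent.W571.WLP
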