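import Pool.Agent.W464.WLP.Defs2

/-!
# WLP-TQ
-/

set_option autoImplicit false

open MvPolynomial
open Pool.Agent.W464.WLP

namespace Pool.Agent.W571.WLP.TQ

/-- the cofactor of a variable in a homogeneous polynomial is homogeneous -/
lemma homog_of_X_mul {K : Type} [Field K] {v n : ℕ} (l : Fin v) {q : MvPolynomial (Fin v) K}
    (h : (X l * q).IsHomogeneous (n + 1)) : q.IsHomogeneous n := by
  intro d hd
  have h1 : coeff (Finsupp.single l 1 + d) (X l * q) ≠ 0 := by rwa [coeff_X_mul]
  have h2 := h h1
  rw [map_add, Finsupp.weight_single, Pi.one_apply, smul_eq_mul, mul_one] at h2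
  omega

section

variable {K : Type} [Field K] {v k : ℕ} {I : Type} [Fintype I] [DecidableEq I]

lemma w_ne (C : Conf K v k I) (hk : 1 ≤ k) (b : Bool) (i : I) : ∃ l, C.w b i l ≠ 0 := by
  by_contra hne
  push Not at hne
  have h0 : C.w b i = 0 := funext hne
  have h1 := C.dual b i i
  rw [if_pos rfl, h0, MvPolynomial.eval_zero, constantCoeff_eq] at h1
  have h2 : coeff 0 (C.f b i) = 0 := by
    refine (C.hom b i).coeff_eq_zero ?_
    simp
    omega
  rw [h2] at h1
  exact zero_ne_one h1

/-- a form of degree at most `k + 1` vanishing at all points vanishes -/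
lemma zero_of (C : Conf K v k I) (hk : 1 ≤ k) (hv : 2 ≤ v) {n : ℕ} (hn : n ≤ k + 1)
    {F : MvPolynomial (Fin v) K} (hF : F.IsHomogeneous n) (h : ∀ b i, eval (C.w b i) F = 0) :
    F = 0 := by
  rcases Nat.lt_or_ge k n with h1 | h1
  · have h2 : n = k + 1 := by omega
    subst h2
    exact C.big F hF h
  · have l : Fin v := ⟨0, by omega⟩
    have h2 : X l ^ (k - n) * F = 0 := by
      refine C.uni false _ ?_ fun i => ?_
      · have h3 := ((isHomogeneous_X K l).pow (k - n)).mul hF
        have h4 : 1 * (k - n) + n = k := by omega
        rwa [h4] at h3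
      · rw [map_mul, h, mul_zero]
    rcases mul_eq_zero.1 h2 with h3 | h3
    · exact absurd h3 (pow_ne_zero _ (X_ne_zero l))
    · exact h3

end

theorem tq : TQ := by
  intro K _ v k I _ _ C hv hk m
  induction m with
  | zero =>
    intro _ α hα
    refine ⟨∑ i, MvPolynomial.C (α true i) * C.f true i, ?_, ?_⟩
    · refine IsHomogeneous.sum _ _ _ fun i _ => ?_
      have h := (isHomogeneous_C (Fin v) (α true i)).mul (C.hom true i)
      rwa [zero_add] at h
    · have h1 := hα 1 (isHomogeneous_one (Fin v) K)
      intro b n
      rw [map_sum]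
      cases b
      · have h2 := h1 n
        simp only [map_one, mul_one] at h2
        have h3 : ∑ i, α false i * C.e false i n = α false n := by
          rw [Finset.sum_eq_single n]
          · show α false n * eval (C.w false n) (C.f false n) = α false n
            rw [C.dual false n n, if_pos rfl, mul_one]
          · intro i _ hi
            show α false i * eval (C.w false n) (C.f false i) = 0
            rw [C.dual false n i, if_neg (Ne.symm hi), mul_zero]
          · intro h; exact absurd (Finset.mem_univ n) h
        rw [h3] at h2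
        rw [h2]
        refine Finset.sum_congr rfl fun i _ => ?_
        rw [map_mul, eval_C]
        rfl
      · rw [Finset.sum_eq_single n]
        · rw [map_mul, eval_C, C.dual true n n, if_pos rfl, mul_one]
        · intro i _ hi
          rw [map_mul, C.dual true n i, if_neg (Ne.symm hi), mul_zero]
        · intro h; exact absurd (Finset.mem_univ n) h
  | succ m ih =>
    intro hm α hα
    have hq : ∀ l : Fin v, ∃ q : MvPolynomial (Fin v) K, q.IsHomogeneous (k - m) ∧
        ∀ b i, C.w b i l * α b i = eval (C.w b i) q := by
      intro l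
      refine ih (by omega) (fun b i => C.w b i l * α b i) fun p hp l' => ?_
      have h1 := hα (X l * p) (by
        have := (isHomogeneous_X K l).mul hp
        rwa [add_comm] at this) l'
      simp only [map_mul, eval_X] at h1
      have e1 : ∀ b, ∑ i, C.w b i l * α b i * eval (C.w b i) p * C.e b i l' =
          ∑ i, α b i * (C.w b i l * eval (C.w b i) p) * C.e b i l' := fun b =>
        Finset.sum_congr rfl fun i _ => by ring
      rw [e1 false, e1 true]
      exact h1
    choose q hqh hqe using hq
    have hcomm : ∀ l l' : Fin v, X l * q l' = X l' * q l := by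
      intro l l'
      rw [← sub_eq_zero]
      refine zero_of C hk hv (n := k - m + 1) (by omega) ?_ fun b i => ?_
      · have h1 := (isHomogeneous_X K l).mul (hqh l')
        have h2 := (isHomogeneous_X K l').mul (hqh l)
        rw [add_comm] at h1 h2
        exact h1.sub h2
      · rw [map_sub, map_mul, map_mul, eval_X, eval_X, ← hqe, ← hqe]
        ring
    let z : Fin v := ⟨0, by omega⟩
    let o : Fin v := ⟨1, by omega⟩
    have hzo : z ≠ o := by
      intro h
      have := congrArg Fin.val h
      simp [z, o] at this
    have hdvd : (X z : MvPolynomial (Fin v) K) ∣ X o * q z := ⟨q o, (hcomm z o).symm⟩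
    have hprime : Prime (X z : MvPolynomial (Fin v) K) := MvPolynomial.X_prime
    have hndvd : ¬ (X z : MvPolynomial (Fin v) K) ∣ X o := by
      intro h
      rw [MvPolynomial.X_dvd_X] at h
      exact hzo h
    obtain ⟨r, hr⟩ := (hprime.dvd_or_dvd hdvd).resolve_left hndvd
    have hql : ∀ l, q l = X l * r := by
      intro l
      have h1 := hcomm z l
      rw [hr, mul_left_comm] at h1
      exact mul_left_cancel₀ (X_ne_zero z) h1
    refine ⟨r, ?_, fun b i => ?_⟩
    · have h1 := hqh z
      rw [hr] at h1
      have h2 : k - m = k - (m + 1) + 1 := by omega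
      rw [h2] at h1
      exact homog_of_X_mul z h1
    · obtain ⟨l, hl⟩ := w_ne C hk b i
      have h1 := hqe l b i
      rw [hql, map_mul, eval_X] at h1
      exact mul_left_cancel₀ hl h1

end Pool.Agent.W571.WLP.TQ
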